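import Mathlib

/-!
# The weighted pendulum equation: a solution with the centre constraint which leaves the range
-/

set_option autoImplicit false

open MeasureTheory Filter Topology Set
open scoped ContDiff

namespace Pool.Agent.Results.MP_4601b9_an.SignChange

/-- `a` is a weight: measurable with `0 < a₀ ≤ a ≤ A₀` almost everywhere. -/
def IsWeight (a : ℝ → ℝ) : Prop :=
  Measurable a ∧ ∃ a₀ A₀ : ℝ, 0 < a₀ ∧ a₀ ≤ A₀ ∧ ∀ᵐ x, a₀ ≤ a x ∧ a x ≤ A₀

/-- `ψ` is a smooth function with compact support in the set `U`. -/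
def IsTest (U : Set ℝ) (ψ : ℝ → ℝ) : Prop :=
  ContDiff ℝ ∞ ψ ∧ HasCompactSupport ψ ∧ tsupport ψ ⊆ U

/-- `φ` is (the continuous representative of) an element of `Ḣ¹(ℝ)` with distributional
derivative `g`. -/
structure IsHdot (φ g : ℝ → ℝ) : Prop where
  cont : Continuous φ
  memLp : MemLp g 2 volume
  weakDeriv : ∀ ψ : ℝ → ℝ, IsTest univ ψ → ∫ x, φ x * deriv ψ x = -∫ x, g x * ψ x

/-- `φ`, with distributional derivative `g`, solves `(a φ')' + a sin φ cos φ = 0` in the sense of
distributions on `ℝ \ {0}`. -/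
def SolvesE (a φ g : ℝ → ℝ) : Prop :=
  ∀ ψ : ℝ → ℝ, IsTest {0}ᶜ ψ →
    -(∫ x, a x * g x * deriv ψ x) + ∫ x, a x * Real.sin (φ x) * Real.cos (φ x) * ψ x = 0

/-- The constraints at `0` and at `±∞`. -/
def Constraints (φ : ℝ → ℝ) : Prop :=
  φ 0 = 0 ∧ Tendsto φ atTop (𝓝 (Real.pi / 2)) ∧ Tendsto φ atBot (𝓝 (-(Real.pi / 2)))

/-- Replace a function by a continuous one on an interval. -/
lemma piece {h k : ℝ → ℝ} {a b : ℝ} (hab : a ≤ b) (hk : Continuous k)
    (heq : ∀ x ∈ Ioo a b, h x = k x) :
    IntervalIntegrable h volume a b ∧ ∫ x in a..b, h x = ∫ x in a..b, k x := by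
  have hae : ∀ᵐ x ∂(volume.restrict (Ioc a b)), h x = k x := by
    rw [← restrict_Ioo_eq_restrict_Ioc]
    filter_upwards [ae_restrict_mem measurableSet_Ioo] with x hx using heq x hx
  constructor
  · rw [intervalIntegrable_iff_integrableOn_Ioc_of_le hab]
    exact ((hk.intervalIntegrable a b).1).congr (hae.mono fun x hx => hx.symm)
  · rw [intervalIntegral.integral_of_le hab, intervalIntegral.integral_of_le hab]
    exact integral_congr_ae hae

/-- Splitting the integral of a function with bounded support. -/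
lemma total {h k₁ k₂ k₃ : ℝ → ℝ} {R : ℝ} (hR : Real.pi < R)
    (hs : Function.support h ⊆ Ioc (-R) R) (h₁ : Continuous k₁) (h₂ : Continuous k₂)
    (h₃ : Continuous k₃) (e₁ : ∀ x, x < 0 → h x = k₁ x)
    (e₂ : ∀ x, 0 < x → x < Real.pi → h x = k₂ x) (e₃ : ∀ x, Real.pi < x → h x = k₃ x) :
    ∫ x, h x = (∫ x in (-R)..0, k₁ x) + (∫ x in (0 : ℝ)..Real.pi, k₂ x) +
      ∫ x in Real.pi..R, k₃ x := by
  have hπ := Real.pi_pos
  obtain ⟨i₁, j₁⟩ := piece (a := -R) (b := 0) (by linarith) h₁ (fun x hx => e₁ x hx.2)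
  obtain ⟨i₂, j₂⟩ := piece (a := 0) (b := Real.pi) hπ.le h₂ (fun x hx => e₂ x hx.1 hx.2)
  obtain ⟨i₃, j₃⟩ := piece (a := Real.pi) (b := R) hR.le h₃ (fun x hx => e₃ x hx.1)
  rw [← intervalIntegral.integral_eq_integral_of_support_subset hs, ← j₁, ← j₂, ← j₃,
    intervalIntegral.integral_add_adjacent_intervals i₁ i₂,
    intervalIntegral.integral_add_adjacent_intervals (i₁.trans i₂) i₃]

/-- The weight. -/
noncomputable def wt (x : ℝ) : ℝ := 1 + Real.sin (max 0 (min x Real.pi)) ^ 2

/-- The solution. -/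
noncomputable def phi (x : ℝ) : ℝ :=
  if x ≤ 0 then Real.arctan (Real.sinh x) else
    if x ≤ Real.pi then -Real.arctan (Real.sin x) else Real.arctan (Real.sinh (x - Real.pi))

/-- Its derivative. -/
noncomputable def dphi (x : ℝ) : ℝ :=
  if x ≤ 0 then 1 / Real.cosh x else
    if x ≤ Real.pi then -(Real.cos x / (1 + Real.sin x ^ 2)) else 1 / Real.cosh (x - Real.pi)

lemma wt_left {x : ℝ} (hx : x ≤ 0) : wt x = 1 := by
  have : max 0 (min x Real.pi) = 0 := max_eq_left ((min_le_left _ _).trans hx)
  simp [wt, this]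

lemma wt_mid {x : ℝ} (h0 : 0 ≤ x) (h1 : x ≤ Real.pi) : wt x = 1 + Real.sin x ^ 2 := by
  simp [wt, min_eq_left h1, max_eq_right h0]

lemma wt_right {x : ℝ} (h1 : Real.pi ≤ x) : wt x = 1 := by
  simp [wt, min_eq_right h1, max_eq_right Real.pi_pos.le]

lemma continuous_wt : Continuous wt := by
  unfold wt
  fun_prop

lemma isWeight_wt : IsWeight wt := by
  refine ⟨continuous_wt.measurable, 1, 2, one_pos, one_le_two, Eventually.of_forall fun x => ?_⟩
  unfold wt
  have := Real.sin_sq_le_one (max 0 (min x Real.pi))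
  constructor
  · nlinarith [sq_nonneg (Real.sin (max 0 (min x Real.pi)))]
  · linarith

lemma hasDeriv_left (x : ℝ) :
    HasDerivAt (fun x => Real.arctan (Real.sinh x)) (1 / Real.cosh x) x := by
  refine (Real.hasDerivAt_sinh x).arctan.congr_deriv ?_
  have h1 : 1 + Real.sinh x ^ 2 = Real.cosh x ^ 2 := by rw [Real.cosh_sq]; ring
  have h2 := (Real.cosh_pos x).ne'
  rw [h1]
  field_simp

lemma hasDeriv_mid (x : ℝ) :
    HasDerivAt (fun x => -Real.arctan (Real.sin x)) (-(Real.cos x / (1 + Real.sin x ^ 2))) x := by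
  refine ((Real.hasDerivAt_sin x).arctan.neg).congr_deriv ?_
  ring

lemma hasDeriv_right (x : ℝ) :
    HasDerivAt (fun x => Real.arctan (Real.sinh (x - Real.pi))) (1 / Real.cosh (x - Real.pi)) x := by
  have := (hasDeriv_left (x - Real.pi)).comp x ((hasDerivAt_id x).sub_const Real.pi)
  exact this.congr_deriv (by ring)

lemma continuous_left : Continuous fun x => Real.arctan (Real.sinh x) :=
  Real.continuous_arctan.comp Real.continuous_sinh

lemma continuous_mid : Continuous fun x => -Real.arctan (Real.sin x) :=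
  (Real.continuous_arctan.comp Real.continuous_sin).neg

lemma continuous_right : Continuous fun x => Real.arctan (Real.sinh (x - Real.pi)) :=
  Real.continuous_arctan.comp (Real.continuous_sinh.comp (by fun_prop))

lemma continuous_dleft : Continuous fun x => 1 / Real.cosh x :=
  continuous_const.div Real.continuous_cosh fun x => (Real.cosh_pos x).ne'

lemma continuous_dmid : Continuous fun x => -(Real.cos x / (1 + Real.sin x ^ 2)) :=
  (Real.continuous_cos.div (by fun_prop) fun x => by positivity).neg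

lemma continuous_dright : Continuous fun x => 1 / Real.cosh (x - Real.pi) :=
  continuous_dleft.comp (by fun_prop)

lemma continuous_phi : Continuous phi := by
  unfold phi
  refine Continuous.if_le continuous_left ?_ continuous_id continuous_const ?_
  · refine Continuous.if_le continuous_mid continuous_right continuous_id continuous_const ?_
    intro x hx
    simp [hx]
  · intro x hx
    simp [hx, Real.pi_pos.le]

lemma measurable_dphi : Measurable dphi := by
  unfold dphi
  refine Measurable.ite measurableSet_Iic continuous_dleft.measurable ?_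
  exact Measurable.ite measurableSet_Iic continuous_dmid.measurable continuous_dright.measurable

lemma inv_cosh_le (x : ℝ) : 1 / Real.cosh x ≤ 2 * Real.exp (-|x|) := by
  rw [div_le_iff₀ (Real.cosh_pos x), ← Real.cosh_abs x, Real.cosh_eq]
  have h1 : Real.exp (-|x|) * Real.exp |x| = 1 := by rw [← Real.exp_add]; simp
  have h2 := Real.exp_pos (-|x|)
  nlinarith

lemma abs_dphi_le (x : ℝ) : |dphi x| ≤ 2 * Real.exp Real.pi * Real.exp (-|x|) := by
  have hπ := Real.pi_pos
  have hE := Real.one_le_exp hπ.le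
  have hx := Real.exp_pos (-|x|)
  unfold dphi
  split_ifs with h0 h1
  · rw [abs_of_pos (by have := Real.cosh_pos x; positivity)]
    refine (inv_cosh_le x).trans ?_
    nlinarith
  · rw [abs_neg, abs_div, abs_of_pos (by positivity : (0 : ℝ) < 1 + Real.sin x ^ 2)]
    have h2 : |Real.cos x| / (1 + Real.sin x ^ 2) ≤ 1 := by
      rw [div_le_one (by positivity)]
      nlinarith [Real.abs_cos_le_one x, sq_nonneg (Real.sin x)]
    refine h2.trans ?_
    have h3 : Real.exp Real.pi * Real.exp (-|x|) = Real.exp (Real.pi - |x|) := by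
      rw [← Real.exp_add]; ring_nf
    rw [mul_assoc, h3]
    have : 1 ≤ Real.exp (Real.pi - |x|) :=
      Real.one_le_exp (by rw [abs_of_pos (not_le.mp h0)]; linarith)
    linarith
  · push Not at h0 h1
    rw [abs_of_pos (by have := Real.cosh_pos (x - Real.pi); positivity)]
    refine (inv_cosh_le _).trans (le_of_eq ?_)
    rw [abs_of_pos (by linarith : 0 < x - Real.pi), abs_of_pos h0, mul_assoc, ← Real.exp_add]
    ring_nf

lemma memLp_dphi : MemLp dphi 2 volume := by
  have hπ := Real.pi_pos
  have hm := measurable_dphi.aestronglyMeasurable (μ := volume)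
  rw [memLp_two_iff_integrable_sq hm]
  have hdom : Integrable (fun x : ℝ => (2 * Real.exp Real.pi) ^ 2 * Real.exp (-2 * |x|)) := by
    refine Integrable.const_mul ?_ _
    rw [← integrableOn_univ, ← Iic_union_Ioi (a := (0 : ℝ))]
    refine IntegrableOn.union ?_ ?_
    · refine (integrableOn_exp_mul_Iic (a := 2) (by norm_num) 0).congr_fun ?_ measurableSet_Iic
      intro x hx
      have hx' : x ≤ 0 := hx
      simp [abs_of_nonpos hx']
    · refine (integrableOn_exp_mul_Ioi (a := -2) (by norm_num) 0).congr_fun ?_ measurableSet_Ioi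
      intro x hx
      have hx' : 0 < x := hx
      simp [abs_of_pos hx']
  refine hdom.mono' (measurable_dphi.pow_const 2).aestronglyMeasurable
    (Eventually.of_forall fun x => ?_)
  rw [Real.norm_eq_abs, abs_of_nonneg (sq_nonneg _), ← sq_abs]
  calc |dphi x| ^ 2 ≤ (2 * Real.exp Real.pi * Real.exp (-|x|)) ^ 2 :=
        pow_le_pow_left₀ (abs_nonneg _) (abs_dphi_le x) 2
    _ = (2 * Real.exp Real.pi) ^ 2 * Real.exp (-2 * |x|) := by
        rw [mul_pow, ← Real.exp_nat_mul]
        push_cast
        ring_nf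

/-- A test function vanishes outside a bounded interval. -/
lemma test_bound {U : Set ℝ} {ψ : ℝ → ℝ} (h : IsTest U ψ) :
    ∃ R : ℝ, Real.pi < R ∧ tsupport ψ ⊆ Ioo (-R) R := by
  obtain ⟨R, hR⟩ := h.2.1.isCompact.isBounded.subset_closedBall 0
  refine ⟨max R Real.pi + 1, by linarith [le_max_right R Real.pi], fun x hx => ?_⟩
  have := hR hx
  rw [Real.closedBall_eq_Icc] at this
  have hm := le_max_left R Real.pi
  exact ⟨by linarith [this.1], by linarith [this.2]⟩

lemma contDiff_deriv {ψ : ℝ → ℝ} (h : ContDiff ℝ ∞ ψ) :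
    (∀ x, HasDerivAt ψ (deriv ψ x) x) ∧ Continuous (deriv ψ) := by
  have h1 : ContDiff ℝ 1 ψ := h.of_le (by exact_mod_cast le_top)
  exact ⟨fun x => (h1.differentiable one_ne_zero x).hasDerivAt, h1.continuous_deriv le_rfl⟩

/-- Integration by parts on an interval. -/
lemma parts {u u' ψ : ℝ → ℝ} {a b : ℝ} (hu : ∀ x, HasDerivAt u (u' x) x) (hu' : Continuous u')
    (hψ : ContDiff ℝ ∞ ψ) :
    ∫ x in a..b, u x * deriv ψ x = u b * ψ b - u a * ψ a - ∫ x in a..b, u' x * ψ x := by
  obtain ⟨h1, h2⟩ := contDiff_deriv hψ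
  exact intervalIntegral.integral_mul_deriv_eq_deriv_mul (fun x _ => hu x) (fun x _ => h1 x)
    (hu'.intervalIntegrable _ _) (h2.intervalIntegrable _ _)

lemma isHdot : IsHdot phi dphi := by
  refine ⟨continuous_phi, memLp_dphi, fun ψ hψ => ?_⟩
  have hπ := Real.pi_pos
  obtain ⟨R, hR, hs⟩ := test_bound hψ
  obtain ⟨hd, hdc⟩ := contDiff_deriv hψ.1
  have hψc := hψ.1.continuous
  have z : ∀ x, x ∉ Ioo (-R) R → ψ x = 0 := fun x hx =>
    image_eq_zero_of_notMem_tsupport fun h => hx (hs h)
  have s1 : Function.support (fun x => phi x * deriv ψ x) ⊆ Ioc (-R) R := fun x hx =>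
    Ioo_subset_Ioc_self (hs (support_deriv_subset (right_ne_zero_of_mul hx)))
  have s2 : Function.support (fun x => dphi x * ψ x) ⊆ Ioc (-R) R := fun x hx =>
    Ioo_subset_Ioc_self (hs (subset_tsupport _ (right_ne_zero_of_mul hx)))
  rw [total (k₁ := fun x => Real.arctan (Real.sinh x) * deriv ψ x)
      (k₂ := fun x => -Real.arctan (Real.sin x) * deriv ψ x)
      (k₃ := fun x => Real.arctan (Real.sinh (x - Real.pi)) * deriv ψ x)
      hR s1 (continuous_left.mul hdc) (continuous_mid.mul hdc) (continuous_right.mul hdc)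
      (fun x hx => by simp [phi, hx.le])
      (fun x h0 h1 => by simp [phi, not_le.mpr h0, h1.le])
      (fun x h1 => by simp [phi, not_le.mpr (hπ.trans h1), not_le.mpr h1]),
    total (k₁ := fun x => 1 / Real.cosh x * ψ x)
      (k₂ := fun x => -(Real.cos x / (1 + Real.sin x ^ 2)) * ψ x)
      (k₃ := fun x => 1 / Real.cosh (x - Real.pi) * ψ x)
      hR s2 (continuous_dleft.mul hψc) (continuous_dmid.mul hψc) (continuous_dright.mul hψc)
      (fun x hx => by simp [dphi, hx.le])
      (fun x h0 h1 => by simp [dphi, not_le.mpr h0, h1.le])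
      (fun x h1 => by simp [dphi, not_le.mpr (hπ.trans h1), not_le.mpr h1]),
    parts hasDeriv_left continuous_dleft hψ.1, parts hasDeriv_mid continuous_dmid hψ.1,
    parts hasDeriv_right continuous_dright hψ.1, z R (by simp), z (-R) (by simp)]
  simp
  ring

lemma sin_mul_cos_arctan (s : ℝ) :
    Real.sin (Real.arctan s) * Real.cos (Real.arctan s) = s / (1 + s ^ 2) := by
  rw [Real.sin_arctan, Real.cos_arctan, div_mul_div_comm, mul_one,
    Real.mul_self_sqrt (by positivity)]

lemma hasDeriv_F1 (x : ℝ) :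
    HasDerivAt (fun x => 1 / Real.cosh x) (-(Real.sinh x / Real.cosh x ^ 2)) x := by
  have h := (hasDerivAt_const x (1 : ℝ)).div (Real.hasDerivAt_cosh x) (Real.cosh_pos x).ne'
  refine h.congr_deriv ?_
  ring

lemma continuous_F1' : Continuous fun x => -(Real.sinh x / Real.cosh x ^ 2) :=
  (Real.continuous_sinh.div (by fun_prop) fun x => by
    have := Real.cosh_pos x
    positivity).neg

lemma hasDeriv_F3 (x : ℝ) :
    HasDerivAt (fun x => 1 / Real.cosh (x - Real.pi))
      (-(Real.sinh (x - Real.pi) / Real.cosh (x - Real.pi) ^ 2)) x := by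
  have := (hasDeriv_F1 (x - Real.pi)).comp x ((hasDerivAt_id x).sub_const Real.pi)
  exact this.congr_deriv (by ring)

lemma continuous_F3' :
    Continuous fun x => -(Real.sinh (x - Real.pi) / Real.cosh (x - Real.pi) ^ 2) :=
  continuous_F1'.comp (by fun_prop : Continuous fun x : ℝ => x - Real.pi)

lemma hasDeriv_F2 (x : ℝ) : HasDerivAt (fun x => -Real.cos x) (Real.sin x) x := by
  exact (Real.hasDerivAt_cos x).fun_neg.congr_deriv (by ring)

lemma solvesE : SolvesE wt phi dphi := by
  intro ψ hψ
  have hπ := Real.pi_pos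
  obtain ⟨R, hR, hs⟩ := test_bound hψ
  obtain ⟨hd, hdc⟩ := contDiff_deriv hψ.1
  have hψc := hψ.1.continuous
  have z : ∀ x, x ∉ Ioo (-R) R → ψ x = 0 := fun x hx =>
    image_eq_zero_of_notMem_tsupport fun h => hx (hs h)
  have z0 : ψ 0 = 0 := image_eq_zero_of_notMem_tsupport fun h => hψ.2.2 h rfl
  have s1 : Function.support (fun x => wt x * dphi x * deriv ψ x) ⊆ Ioc (-R) R := fun x hx =>
    Ioo_subset_Ioc_self (hs (support_deriv_subset (right_ne_zero_of_mul hx)))
  have s2 : Function.support (fun x => wt x * Real.sin (phi x) * Real.cos (phi x) * ψ x) ⊆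
      Ioc (-R) R := fun x hx =>
    Ioo_subset_Ioc_self (hs (subset_tsupport _ (right_ne_zero_of_mul hx)))
  have hcosh : ∀ x : ℝ, 1 + Real.sinh x ^ 2 = Real.cosh x ^ 2 := fun x => by
    rw [Real.cosh_sq]; ring
  rw [total (k₁ := fun x => 1 / Real.cosh x * deriv ψ x) (k₂ := fun x => -Real.cos x * deriv ψ x)
      (k₃ := fun x => 1 / Real.cosh (x - Real.pi) * deriv ψ x) hR s1
      (continuous_dleft.mul hdc) (Real.continuous_cos.neg.mul hdc) (continuous_dright.mul hdc)
      (fun x hx => by simp [dphi, hx.le, wt_left hx.le])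
      (fun x h0 h1 => by
        have : (1 + Real.sin x ^ 2) ≠ 0 := by positivity
        simp only [dphi, not_le.mpr h0, h1.le, if_true, if_false, wt_mid h0.le h1.le]
        field_simp)
      (fun x h1 => by
        simp [dphi, not_le.mpr (hπ.trans h1), not_le.mpr h1, wt_right h1.le]),
    total (k₁ := fun x => -(-(Real.sinh x / Real.cosh x ^ 2) * ψ x))
      (k₂ := fun x => -(Real.sin x * ψ x))
      (k₃ := fun x => -(-(Real.sinh (x - Real.pi) / Real.cosh (x - Real.pi) ^ 2) * ψ x)) hR s2
      (continuous_F1'.mul hψc).neg (Real.continuous_sin.mul hψc).neg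
      (continuous_F3'.mul hψc).neg
      (fun x hx => by
        simp only [phi, hx.le, if_true, wt_left hx.le, one_mul, sin_mul_cos_arctan, hcosh]
        ring)
      (fun x h0 h1 => by
        have : (1 + Real.sin x ^ 2) ≠ 0 := by positivity
        simp only [phi, not_le.mpr h0, h1.le, if_true, if_false, wt_mid h0.le h1.le,
          Real.sin_neg, Real.cos_neg]
        rw [mul_neg, neg_mul, mul_assoc (1 + Real.sin x ^ 2), sin_mul_cos_arctan]
        field_simp)
      (fun x h1 => by
        simp only [phi, not_le.mpr (hπ.trans h1), not_le.mpr h1, if_false, wt_right h1.le,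
          one_mul, sin_mul_cos_arctan, hcosh]
        ring),
    parts hasDeriv_F1 continuous_F1' hψ.1, parts hasDeriv_F2 Real.continuous_sin hψ.1,
    parts hasDeriv_F3 continuous_F3' hψ.1, z R (by simp), z (-R) (by simp), z0]
  simp only [intervalIntegral.integral_neg, Real.cos_pi, sub_self, Real.cosh_zero]
  ring

lemma constraints : Constraints phi := by
  have hπ := Real.pi_pos
  refine ⟨by simp [phi], ?_, ?_⟩
  · have h1 : Tendsto (fun x => Real.arctan (Real.sinh (x - Real.pi))) atTop
        (𝓝 (Real.pi / 2)) := by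
      have h2 : Tendsto (fun x : ℝ => Real.sinh (x - Real.pi)) atTop atTop :=
        Real.sinhOrderIso.tendsto_atTop.comp (tendsto_atTop_add_const_right _ _ tendsto_id)
      exact (Real.tendsto_arctan_atTop.mono_right nhdsWithin_le_nhds).comp h2
    refine h1.congr' ?_
    filter_upwards [eventually_gt_atTop Real.pi] with x hx
    simp [phi, not_le.mpr (hπ.trans hx), not_le.mpr hx]
  · have h1 : Tendsto (fun x => Real.arctan (Real.sinh x)) atBot (𝓝 (-(Real.pi / 2))) :=
      (Real.tendsto_arctan_atBot.mono_right nhdsWithin_le_nhds).comp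
        Real.sinhOrderIso.tendsto_atBot
    refine h1.congr' ?_
    filter_upwards [eventually_le_atBot (0 : ℝ)] with x hx
    simp [phi, hx]

/-- There are a continuous weight `a` satisfying (C) and a solution of (E) with the constraints (K)
which is negative on the whole interval `(0, π)`. -/
theorem result :
    ∃ a φ g : ℝ → ℝ, IsWeight a ∧ Continuous a ∧ IsHdot φ g ∧ SolvesE a φ g ∧ Constraints φ ∧
      ∀ x ∈ Ioo 0 Real.pi, φ x < 0 := by
  refine ⟨wt, phi, dphi, isWeight_wt, continuous_wt, isHdot, solvesE, constraints, ?_⟩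
  intro x hx
  have : 0 < Real.sin x := Real.sin_pos_of_pos_of_lt_pi hx.1 hx.2
  simp only [phi, not_le.mpr hx.1, hx.2.le, if_true, if_false]
  have h2 : 0 < Real.arctan (Real.sin x) := Real.arctan_pos.mpr this
  linarith

end Pool.Agent.Results.MP_4601b9_an.SignChange
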